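import Pool.Agent.H54W.Basic

set_option autoImplicit false

namespace H54W

open Finset

lemma ana_QQ_pos (K : ℕ) : 1 ≤ QQ K := by
  unfold QQ
  have h : 0 < ∏ p ∈ (range (K + 1)).filter (fun p => p.Prime ∧ p ≠ 2), p :=
    Finset.prod_pos fun p hp => (Finset.mem_filter.1 hp).2.1.pos
  omega

lemma ana_poly (k : ℕ) (α r Q : ℝ) :
    (Polynomial.C α * (Polynomial.C r + Polynomial.C Q * Polynomial.X) ^ k).natDegree ≤ k ∧
    (Polynomial.C α * (Polynomial.C r + Polynomial.C Q * Polynomial.X) ^ k).coeff k = α * Q ^ k ∧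
    ∀ y : ℝ, (Polynomial.C α * (Polynomial.C r + Polynomial.C Q * Polynomial.X) ^ k).eval y =
      α * (r + Q * y) ^ k := by
  have h1 : (Polynomial.C r + Polynomial.C Q * Polynomial.X).natDegree ≤ 1 := by
    compute_degree
  refine ⟨?_, ?_, ?_⟩
  · refine (Polynomial.natDegree_C_mul_le _ _).trans ?_
    have := Polynomial.natDegree_pow_le_of_le k h1
    simpa using this
  · rw [Polynomial.coeff_C_mul]
    have h2 := Polynomial.coeff_pow_of_natDegree_le (m := k) h1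
    rw [mul_one] at h2
    rw [h2]
    simp
  · intro y
    simp

theorem t_ANA : S_WEYL → S_CS → S_MAJ → S_ANA := by
  intro hWEYL hCS hMAJ k hk ε hε
  obtain ⟨C1, hC1, hW⟩ := hWEYL k (by omega) ε hε
  have hC0 : 0 < C1 := by linarith
  obtain ⟨B, hB⟩ : ∃ B : ℝ, B = 1 + 2 * Real.pi * (2 ^ k * C1) := ⟨_, rfl⟩
  have hpi := Real.pi_pos
  have hBpos : 0 < B := by rw [hB]; positivity
  obtain ⟨K0, hK0⟩ := hCS k hk (ε / (2 * B)) (by positivity)
  refine ⟨max K0 k, le_max_right _ _, ?_⟩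
  intro ρ hρ
  have hCSK := hK0 (max K0 k) (le_max_left _ _) ρ hρ
  have hQ1 := ana_QQ_pos (max K0 k)
  generalize QQ (max K0 k) = Q at *
  have hQr : (1 : ℝ) ≤ (Q : ℝ) := by exact_mod_cast hQ1
  have hQpos : (0 : ℝ) < (Q : ℝ) := by linarith
  have hQk : (1 : ℝ) ≤ (Q : ℝ) ^ k := one_le_pow₀ hQr
  refine ⟨C1, max (max ρ 1) (⌈2 * C1 * (Q : ℝ) ^ k * B / ε⌉₊), hC0, ?_⟩
  intro Y hY α
  have hYρ : ρ ≤ Y := (le_max_left _ _).trans ((le_max_left _ _).trans hY)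
  have hY1 : 1 ≤ Y := (le_max_right _ _).trans ((le_max_left _ _).trans hY)
  have hYb : 2 * C1 * (Q : ℝ) ^ k * B / ε ≤ Y :=
    (Nat.le_ceil _).trans (by exact_mod_cast (le_max_right _ _).trans hY)
  have hYρr : (ρ : ℝ) ≤ Y := by exact_mod_cast hYρ
  have hY1r : (1 : ℝ) ≤ Y := by exact_mod_cast hY1
  have hYpos : (0 : ℝ) < (Y : ℝ) := by linarith
  have hYk : (0 : ℝ) < (Y : ℝ) ^ k := by positivity
  by_contra hcon
  rw [not_or, not_le, not_exists] at hcon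
  obtain ⟨h1, h2⟩ := hcon
  obtain ⟨p1, p2, p3⟩ := ana_poly k α (ρ : ℝ) (Q : ℝ)
  obtain ⟨q, hq1, hqC, hnd⟩ := hW _ p1 Y hY1 (by simp only [p3]; exact h1.le)
  rw [p2] at hnd
  have hq1r : (1 : ℝ) ≤ (q : ℝ) := by exact_mod_cast hq1
  -- the rational approximation
  obtain ⟨m, hm⟩ : ∃ m : ℤ, |(q : ℝ) * (α * (Q : ℝ) ^ k) - m| ≤ C1 / (Y : ℝ) ^ k := ⟨_, hnd⟩
  obtain ⟨D, hD⟩ : ∃ D : ℕ, D = q * Q ^ k := ⟨_, rfl⟩
  have hD1 : 1 ≤ D := by
    rw [hD]
    exact Nat.mul_pos hq1 (pow_pos hQ1 k)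
  have hDr : (D : ℝ) = q * (Q : ℝ) ^ k := by rw [hD]; push_cast; ring
  have hDge : (Q : ℝ) ^ k ≤ D := by
    rw [hDr]
    nlinarith
  have hDpos : (0 : ℝ) < D := by linarith
  have hDle : (D : ℝ) ≤ C1 * (Q : ℝ) ^ k := by
    rw [hDr]
    exact mul_le_mul_of_nonneg_right hqC (by linarith)
  obtain ⟨r, hr⟩ : ∃ r : ℚ, r = (m : ℚ) / ((D : ℤ) : ℚ) := ⟨_, rfl⟩
  have hrr : ((r : ℚ) : ℝ) = (m : ℝ) / D := by
    rw [hr]; push_cast; rfl
  have hden : r.den ∣ D := by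
    have := Rat.den_dvd m (D : ℤ)
    rw [Rat.divInt_eq_div, ← hr] at this
    exact_mod_cast this
  have hb1 : 1 ≤ r.den := r.pos
  have hbpos : (0 : ℝ) < (r.den : ℝ) := by exact_mod_cast hb1
  have hble : (r.den : ℝ) ≤ C1 * (Q : ℝ) ^ k := by
    have : (r.den : ℝ) ≤ D := by exact_mod_cast Nat.le_of_dvd hD1 hden
    linarith
  have hcast : ((r : ℚ) : ℝ) = (r.num : ℝ) / (r.den : ℝ) := Rat.cast_def r
  obtain ⟨β, hβ⟩ : ∃ β : ℝ, β = α - (r.num : ℝ) / (r.den : ℝ) := ⟨_, rfl⟩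
  have hβ1 : |β| ≤ C1 / (Y : ℝ) ^ k / D := by
    rw [hβ, ← hcast, hrr, le_div_iff₀ hDpos]
    have e1 : |α - (m : ℝ) / D| * D = |(q : ℝ) * (α * (Q : ℝ) ^ k) - m| := by
      rw [← abs_of_pos hDpos, ← abs_mul, abs_of_pos hDpos]
      congr 1
      rw [sub_mul, div_mul_cancel₀ _ hDpos.ne', hDr]
      ring
    rw [e1]
    exact hm
  have hβ2 : |β| ≤ C1 / (Y : ℝ) ^ k := by
    refine hβ1.trans ?_
    rw [div_le_iff₀ hDpos]
    have : 0 < C1 / (Y : ℝ) ^ k := by positivity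
    nlinarith
  have hβ3 : |β| * ((ρ : ℝ) + Q * Y) ^ k ≤ 2 ^ k * C1 := by
    have e1 : ((ρ : ℝ) + Q * Y) ^ k ≤ (2 * (Q * Y)) ^ k := by
      apply pow_le_pow_left₀ (by positivity)
      nlinarith
    calc |β| * ((ρ : ℝ) + Q * Y) ^ k ≤ (C1 / (Y : ℝ) ^ k / D) * (2 * (Q * Y)) ^ k :=
          mul_le_mul hβ1 e1 (by positivity) (by positivity)
      _ = 2 ^ k * C1 * ((Q : ℝ) ^ k / D) := by
          rw [mul_pow, mul_pow]
          field_simp
      _ ≤ 2 ^ k * C1 * 1 := by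
          apply mul_le_mul_of_nonneg_left _ (by positivity)
          rw [div_le_one hDpos]
          exact hDge
      _ = 2 ^ k * C1 := mul_one _
  by_cases hdvd : r.den ∣ Q * k
  · obtain ⟨c, hc⟩ := hdvd
    apply h2 (r.num * c)
    have hkpos : (0 : ℝ) < (k : ℝ) := by
      have : 0 < k := by omega
      exact_mod_cast this
    have hcr : (Q : ℝ) * k = r.den * c := by exact_mod_cast hc
    have hcpos : (c : ℝ) ≠ 0 := by
      intro h0
      rw [h0, mul_zero] at hcr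
      have : 0 < (Q : ℝ) * k := by positivity
      linarith
    have e1 : ((r.num * (c : ℤ) : ℤ) : ℝ) / ((Q : ℝ) * k) = (r.num : ℝ) / (r.den : ℝ) := by
      rw [hcr]
      push_cast
      rw [mul_div_mul_right _ _ hcpos]
    rw [e1, ← hβ]
    exact hβ2
  · have hcop : IsCoprime r.num (r.den : ℤ) := by
      rw [Int.isCoprime_iff_gcd_eq_one]
      exact r.reduced
    have hS := hCSK r.den r.num hb1 hcop hdvd
    have hM := hMAJ k Q ρ r.den Y r.num β (by omega) hb1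
    have e1 : (r.num : ℝ) / (r.den : ℝ) + β = α := by rw [hβ]; ring
    rw [e1] at hM
    have e2 : ‖∑ y ∈ range r.den, e ((r.num : ℝ) * ((ρ : ℝ) + (Q : ℝ) * y) ^ k / r.den)‖ / r.den ≤
        ε / (2 * B) := by
      rw [div_le_iff₀ hbpos]
      exact hS.le
    have e3 : 1 + 2 * Real.pi * |β| * ((ρ : ℝ) + Q * Y) ^ k ≤ B := by
      rw [hB, mul_assoc]
      have := mul_le_mul_of_nonneg_left hβ3 (by positivity : (0 : ℝ) ≤ 2 * Real.pi)
      linarith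
    have e4 : (‖∑ y ∈ range r.den, e ((r.num : ℝ) * ((ρ : ℝ) + (Q : ℝ) * y) ^ k / r.den)‖ / r.den * Y +
        r.den) * (1 + 2 * Real.pi * |β| * ((ρ : ℝ) + Q * Y) ^ k) ≤
        (ε / (2 * B) * Y + C1 * (Q : ℝ) ^ k) * B := by
      apply mul_le_mul _ e3 (by positivity) (by positivity)
      have := mul_le_mul_of_nonneg_right e2 hYpos.le
      linarith
    have e5 : (ε / (2 * B) * Y + C1 * (Q : ℝ) ^ k) * B = ε / 2 * Y + C1 * (Q : ℝ) ^ k * B := by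
      field_simp
    have e6 : C1 * (Q : ℝ) ^ k * B ≤ ε / 2 * Y := by
      rw [div_le_iff₀ hε] at hYb
      linarith
    linarith

end H54W
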