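import Pool.Agent.H54W.Basic

set_option autoImplicit false

namespace H54W

open Finset

theorem CSA_shift1 (g : ℕ → ℂ) (b : ℕ) (hg : ∀ y, g (y + b) = g y) :
    ∑ y ∈ range b, g (y + 1) = ∑ y ∈ range b, g y := by
  have h1 := Finset.sum_range_succ g b
  have h2 := Finset.sum_range_succ' g b
  have h3 : g b = g 0 := by
    have := hg 0
    rwa [zero_add] at this
  rw [h1, h3] at h2
  exact (add_right_cancel h2).symm

theorem CSA_shift (g : ℕ → ℂ) (b : ℕ) (hg : ∀ y, g (y + b) = g y) (s : ℕ) :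
    ∑ y ∈ range b, g (y + s) = ∑ y ∈ range b, g y := by
  induction s with
  | zero => simp
  | succ s ih =>
    have h := CSA_shift1 (fun y => g (y + s)) b (fun y => by
      show g (y + b + s) = g (y + s)
      rw [show y + b + s = y + s + b by ring, hg])
    rw [← ih, ← h]
    refine Finset.sum_congr rfl (fun y _ => ?_)
    show g (y + (s + 1)) = g (y + 1 + s)
    congr 1
    ring

theorem CSA_geom (c : ℤ) (p : ℕ) (hp : p.Prime) (hc : ¬ (p : ℤ) ∣ c) :
    ∑ t ∈ range p, e ((c : ℝ) * t / p) = 0 := by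
  have hp0 : (p : ℝ) ≠ 0 := by exact_mod_cast hp.ne_zero
  have h1 : ∀ t : ℕ, e ((c : ℝ) * t / p) = e ((c : ℝ) / p) ^ t := by
    intro t
    induction t with
    | zero => simp [e_zero]
    | succ t ih =>
      rw [pow_succ, ← ih, ← e_add]
      congr 1
      push_cast
      ring
  simp_rw [h1]
  have h2 : e ((c : ℝ) / p) ≠ 1 := by
    intro h
    unfold e at h
    rw [Complex.exp_eq_one_iff] at h
    obtain ⟨n, hn⟩ := h
    have h3 : (2 * Real.pi * Complex.I) * (((c : ℝ) / p : ℝ) : ℂ) =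
        (2 * Real.pi * Complex.I) * (n : ℂ) := by
      rw [hn]; ring
    have h4 := mul_left_cancel₀ Complex.two_pi_I_ne_zero h3
    have h5 : ((c : ℝ) / p : ℝ) = n := by exact_mod_cast h4
    rw [div_eq_iff hp0] at h5
    apply hc
    refine ⟨n, ?_⟩
    have h6 : (c : ℝ) = ((p * n : ℤ) : ℝ) := by
      rw [h5]; push_cast; ring
    exact_mod_cast h6
  have h3 : e ((c : ℝ) / p) ^ p = 1 := by
    rw [← h1 p, mul_div_assoc, div_self hp0, mul_one]
    exact e_int c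
  have h4 := mul_neg_geom_sum (e ((c : ℝ) / p)) p
  rw [h3, sub_self] at h4
  rcases mul_eq_zero.mp h4 with h | h
  · exact absurd (sub_eq_zero.mp h).symm h2
  · exact h

theorem CSA_val (k Q p i : ℕ) (hk : 1 ≤ k) (hQ : 1 ≤ Q) (hp : p.Prime) (hpQ : p ∣ Q)
    (h4 : p = 2 → 4 ∣ Q) (hi : 2 ≤ i) (hik : i ≤ k) :
    p ^ (padicValNat p (Q * k) + 1) ∣ Nat.choose k i * Q ^ i := by
  have : Fact p.Prime := ⟨hp⟩
  have hC : Nat.choose k i ≠ 0 := (Nat.choose_pos hik).ne'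
  have hQi : Q ^ i ≠ 0 := pow_ne_zero _ (by omega)
  rw [padicValNat_dvd_iff_le (mul_ne_zero hC hQi), padicValNat.mul (by omega) (by omega),
    padicValNat.mul hC hQi, padicValNat.pow]
  -- `v(k) ≤ v(C(k,i)) + v(i)`
  have h1 : padicValNat p k ≤ padicValNat p (Nat.choose k i) + padicValNat p i := by
    obtain ⟨k', rfl⟩ : ∃ k', k = k' + 1 := ⟨k - 1, by omega⟩
    obtain ⟨i', rfl⟩ : ∃ i', i = i' + 1 := ⟨i - 1, by omega⟩
    have h := Nat.add_one_mul_choose_eq k' i'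
    have hC' : Nat.choose k' i' ≠ 0 := (Nat.choose_pos (by omega)).ne'
    have h2 := congrArg (padicValNat p) h
    rw [padicValNat.mul (by omega) hC', padicValNat.mul hC (by omega)] at h2
    omega
  -- `v(i)` is small
  have hvi : p ^ padicValNat p i ≤ i := Nat.le_of_dvd (by omega) pow_padicValNat_dvd
  have hvQ : 1 ≤ padicValNat p Q := one_le_padicValNat_of_dvd (by omega) hpQ
  generalize padicValNat p i = w at *
  have key : w + 1 ≤ (i - 1) * padicValNat p Q := by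
    by_cases hp2 : p = 2
    · subst hp2
      have hvQ2 : 2 ≤ padicValNat 2 Q := by
        rw [← padicValNat_dvd_iff_le (by omega)]
        exact h4 rfl
      have hw : w + 1 ≤ 2 ^ w := Nat.lt_two_pow_self
      have h5 : (i - 1) * 2 ≤ (i - 1) * padicValNat 2 Q := Nat.mul_le_mul_left _ hvQ2
      omega
    · have hp3 : 3 ≤ p := by
        have := hp.two_le
        omega
      have h5 : (i - 1) * 1 ≤ (i - 1) * padicValNat p Q := Nat.mul_le_mul_left _ hvQ
      have h6 : 3 ^ w ≤ i := (Nat.pow_le_pow_left hp3 w).trans hvi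
      have h7 : w = 0 ∨ w + 2 ≤ 3 ^ w := by
        rcases Nat.eq_zero_or_pos w with h | h
        · exact Or.inl h
        · right
          clear h6 hvi h1 h5
          induction w, h using Nat.le_induction with
          | base => norm_num
          | succ n hn ih => rw [pow_succ]; omega
      omega
  have h8 : i * padicValNat p Q = (i - 1) * padicValNat p Q + padicValNat p Q := by
    obtain ⟨i', rfl⟩ : ∃ i', i = i' + 1 := ⟨i - 1, by omega⟩
    rw [Nat.add_sub_cancel]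
    ring
  omega

theorem CSA_binom (k Q σ p x t u v b : ℕ) (hk : 1 ≤ k) (hQ : 1 ≤ Q) (hp : p.Prime) (hpQ : p ∣ Q)
    (h4 : p = 2 → 4 ∣ Q) (hv : v = padicValNat p (Q * k)) (hb : b = p ^ (v + 1) * σ)
    (hu : Q * k = p ^ v * u) :
    ∃ w : ℕ, (x + Q * (σ * t)) ^ k = x ^ k + p ^ v * σ * u * t * x ^ (k - 1) + b * w := by
  have h1 : ∀ i, 2 ≤ i → i ≤ k → b ∣ (Q * (σ * t)) ^ i * x ^ (k - i) * Nat.choose k i := by
    intro i hi hik
    obtain ⟨c, hc⟩ := CSA_val k Q p i hk hQ hp hpQ h4 hi hik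
    rw [← hv] at hc
    obtain ⟨i', rfl⟩ : ∃ i', i = i' + 1 := ⟨i - 1, by omega⟩
    refine ⟨c * (σ ^ i' * t ^ (i' + 1)) * x ^ (k - (i' + 1)), ?_⟩
    calc (Q * (σ * t)) ^ (i' + 1) * x ^ (k - (i' + 1)) * Nat.choose k (i' + 1)
        = (Nat.choose k (i' + 1) * Q ^ (i' + 1)) * (σ * (σ ^ i' * t ^ (i' + 1))) *
          x ^ (k - (i' + 1)) := by ring
      _ = b * (c * (σ ^ i' * t ^ (i' + 1)) * x ^ (k - (i' + 1))) := by rw [hc, hb]; ring
  obtain ⟨k', rfl⟩ : ∃ k', k = k' + 1 := ⟨k - 1, by omega⟩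
  have h2 : (x + Q * (σ * t)) ^ (k' + 1) =
      ∑ i ∈ range (k' + 1 + 1), (Q * (σ * t)) ^ i * x ^ (k' + 1 - i) * Nat.choose (k' + 1) i := by
    rw [add_comm, add_pow]
    rfl
  rw [Finset.sum_range_succ', Finset.sum_range_succ'] at h2
  have h3 : b ∣ ∑ i ∈ range k', (Q * (σ * t)) ^ (i + 1 + 1) * x ^ (k' + 1 - (i + 1 + 1)) *
      Nat.choose (k' + 1) (i + 1 + 1) := by
    refine Finset.dvd_sum (fun i hi => h1 (i + 1 + 1) (by omega) ?_)
    rw [mem_range] at hi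
    omega
  obtain ⟨w, hw⟩ := h3
  refine ⟨w, ?_⟩
  rw [h2, hw]
  simp only [zero_add, pow_one, pow_zero, Nat.choose_zero_right, Nat.choose_one_right,
    Nat.sub_zero, Nat.add_sub_cancel, one_mul, mul_one]
  have h5 : Q * (σ * t) * x ^ k' * (k' + 1) = (Q * (k' + 1)) * (σ * t * x ^ k') := by ring
  rw [h5, hu]
  ring

theorem t_CSA : S_CSA := by
  intro k Q ρ b p a hk hQ hb hp hpQ h4 hρ hab hpb
  have : Fact p.Prime := ⟨hp⟩
  obtain ⟨v, hv⟩ : ∃ v, v = padicValNat p (Q * k) := ⟨_, rfl⟩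
  rw [← hv] at hpb
  obtain ⟨σ, hσ⟩ := hpb
  have hQk : Q * k ≠ 0 := Nat.mul_ne_zero (by omega) (by omega)
  obtain ⟨u, hu⟩ : p ^ v ∣ Q * k := by rw [hv]; exact pow_padicValNat_dvd
  have hpu : ¬ p ∣ u := by
    rintro ⟨u', rfl⟩
    have : p ^ (v + 1) ∣ Q * k := ⟨u', by rw [hu, pow_succ]; ring⟩
    rw [padicValNat_dvd_iff_le hQk, ← hv] at this
    omega
  have hpa : ¬ (p : ℤ) ∣ a := by
    intro h
    have h1 : (p : ℤ) ∣ (b : ℤ) := by
      rw [hσ, pow_succ]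
      push_cast
      exact ⟨(p : ℤ) ^ v * σ, by ring⟩
    have h2 := hab.isUnit_of_dvd' h h1
    rw [Int.isUnit_iff] at h2
    have := hp.two_le
    omega
  have hbR : (b : ℝ) ≠ 0 := by
    have : b ≠ 0 := by omega
    exact_mod_cast this
  have hpR : (p : ℝ) ≠ 0 := by exact_mod_cast hp.ne_zero
  have hσ0 : (σ : ℝ) ≠ 0 := by
    intro h
    have : σ = 0 := by exact_mod_cast h
    rw [this, mul_zero] at hσ
    omega
  -- the summand
  set g : ℕ → ℂ := fun y => e ((a : ℝ) * ((ρ : ℝ) + Q * y) ^ k / b) with hg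
  have hgb : ∀ y, g (y + b) = g y := by
    intro y
    have h1 : ((b : ℕ) : ℤ) ∣ ((ρ : ℤ) + Q * (y + b)) ^ k - ((ρ : ℤ) + Q * y) ^ k := by
      have h2 : (ρ : ℤ) + Q * (y + b) - ((ρ : ℤ) + Q * y) ∣
        ((ρ : ℤ) + Q * (y + b)) ^ k - ((ρ : ℤ) + Q * y) ^ k := sub_dvd_pow_sub_pow _ _ k
      refine Dvd.dvd.trans ?_ h2
      exact ⟨Q, by ring⟩
    obtain ⟨c, hc⟩ := h1
    have h3 : ((ρ : ℝ) + Q * ((y + b : ℕ) : ℝ)) ^ k = ((ρ : ℝ) + Q * y) ^ k + b * c := by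
      have h5 : (((ρ : ℤ) + Q * (y + b)) ^ k : ℤ) = ((ρ : ℤ) + Q * y) ^ k + b * c := by
        linarith
      have h6 := congrArg (fun z : ℤ => (z : ℝ)) h5
      push_cast at h6 ⊢
      exact h6
    simp only [hg]
    rw [h3]
    have h7 : (a : ℝ) * (((ρ : ℝ) + Q * y) ^ k + b * c) / b =
        (a : ℝ) * ((ρ : ℝ) + Q * y) ^ k / b + ((a * c : ℤ) : ℝ) := by
      push_cast
      field_simp
    rw [h7, e_add_int]
  have hgt : ∀ y t, g (y + σ * t) = g y *
      e (((a * (u * ((ρ + Q * y : ℕ) : ℤ) ^ (k - 1)) : ℤ) : ℝ) * t / p) := by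
    intro y t
    obtain ⟨w, hw⟩ := CSA_binom k Q σ p (ρ + Q * y) t u v b hk hQ hp hpQ h4 hv hσ hu
    have h1 : ((ρ : ℝ) + Q * ((y + σ * t : ℕ) : ℝ)) ^ k =
        ((ρ : ℝ) + Q * y) ^ k + p ^ v * σ * u * t * ((ρ + Q * y : ℕ) : ℝ) ^ (k - 1) + b * w := by
      have h2 := congrArg (fun z : ℕ => (z : ℝ)) hw
      push_cast at h2 ⊢
      rw [← h2]
      congr 1
      ring
    simp only [hg]
    rw [h1]
    have hbp : (b : ℝ) = p ^ v * p * σ := by
      have := congrArg (fun z : ℕ => (z : ℝ)) hσ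
      push_cast at this
      rw [this, pow_succ]
    have h3 : (a : ℝ) * (((ρ : ℝ) + Q * y) ^ k +
          p ^ v * σ * u * t * ((ρ + Q * y : ℕ) : ℝ) ^ (k - 1) + b * w) / b =
        (a : ℝ) * ((ρ : ℝ) + Q * y) ^ k / b +
          ((a * (u * ((ρ + Q * y : ℕ) : ℤ) ^ (k - 1)) : ℤ) : ℝ) * t / p + ((a * w : ℤ) : ℝ) := by
      have h4 : (a : ℝ) * (p ^ v * σ * u * t * ((ρ + Q * y : ℕ) : ℝ) ^ (k - 1)) / b =
          ((a * (u * ((ρ + Q * y : ℕ) : ℤ) ^ (k - 1)) : ℤ) : ℝ) * t / p := by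
        rw [hbp]
        push_cast
        field_simp
      rw [mul_add, mul_add, add_div, add_div, h4]
      congr 1
      push_cast
      field_simp
    rw [h3, e_add_int, e_add]
  have hsum : ∀ t : ℕ, ∑ y ∈ range b, g y = ∑ y ∈ range b, g y *
      e (((a * (u * ((ρ + Q * y : ℕ) : ℤ) ^ (k - 1)) : ℤ) : ℝ) * t / p) := by
    intro t
    rw [← CSA_shift g b hgb (σ * t)]
    exact Finset.sum_congr rfl (fun y _ => hgt y t)
  have hps : (p : ℂ) * ∑ y ∈ range b, g y = 0 := by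
    have h1 : (p : ℂ) * ∑ y ∈ range b, g y = ∑ t ∈ range p, ∑ y ∈ range b, g y := by
      rw [Finset.sum_const, card_range, nsmul_eq_mul]
    rw [h1]
    have h2 : ∑ t ∈ range p, ∑ y ∈ range b, g y = ∑ t ∈ range p, ∑ y ∈ range b, g y *
        e (((a * (u * ((ρ + Q * y : ℕ) : ℤ) ^ (k - 1)) : ℤ) : ℝ) * t / p) :=
      Finset.sum_congr rfl (fun t _ => hsum t)
    rw [h2, Finset.sum_comm]
    refine Finset.sum_eq_zero (fun y _ => ?_)
    rw [← Finset.mul_sum, CSA_geom _ p hp ?_, mul_zero]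
    intro h
    have hpZ : Prime (p : ℤ) := Nat.prime_iff_prime_int.mp hp
    rcases hpZ.dvd_or_dvd h with h | h
    · exact hpa h
    · rcases hpZ.dvd_or_dvd h with h | h
      · exact hpu (by exact_mod_cast h)
      · have h6 := hpZ.dvd_of_dvd_pow h
        have h7 : p ∣ ρ + Q * y := by exact_mod_cast h6
        exact hρ ((Nat.dvd_add_left (Dvd.dvd.mul_right hpQ y)).mp h7)
  rcases mul_eq_zero.mp hps with h | h
  · exact absurd h (by exact_mod_cast hp.ne_zero)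
  · exact h

end H54W
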