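import Pool.Agent.H54W.Basic

/-! Geometric sums. -/

set_option autoImplicit false

namespace H54W

open Finset

theorem GEO_low (β : ℝ) : 4 * nd β ≤ ‖e β - 1‖ := by
  have h1 : e β = e (β - round β) := by
    have := e_add_int (β - round β) (round β)
    rw [sub_add_cancel] at this
    exact this
  have hd : |β - round β| ≤ 1 / 2 := abs_sub_round β
  have hpi := Real.pi_pos
  rw [h1, e_eq, mul_comm _ Complex.I, Complex.norm_exp_I_mul_ofReal_sub_one]
  have h2 : 2 * Real.pi * (β - round β) / 2 = Real.pi * (β - round β) := by ring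
  rw [h2, Real.norm_eq_abs, abs_mul]
  have h3 : |Real.pi * (β - round β)| ≤ Real.pi / 2 := by
    rw [abs_mul, abs_of_pos hpi]
    nlinarith
  have h4 := Real.mul_abs_le_abs_sin h3
  rw [abs_mul, abs_of_pos hpi] at h4
  have h5 : 2 / Real.pi * (Real.pi * |β - round β|) = 2 * |β - round β| := by
    field_simp
  rw [h5] at h4
  unfold nd
  have h6 : |(2 : ℝ)| = 2 := abs_of_pos (by norm_num)
  rw [h6]
  linarith

theorem GEO_pow (β : ℝ) (y : ℕ) : e (β * (y : ℝ)) = e β ^ y := by
  induction y with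
  | zero => simp [e_zero]
  | succ y ih =>
    rw [pow_succ, ← ih, ← e_add]
    congr 1
    push_cast
    ring

theorem t_GEO : S_GEO := by
  intro β γ Y
  have h1 : ∑ y ∈ range Y, e (β * (y : ℝ) + γ) = (∑ y ∈ range Y, e β ^ y) * e γ := by
    rw [sum_mul]
    refine sum_congr rfl fun y _ => ?_
    rw [e_add, GEO_pow]
  rw [h1, norm_mul, norm_e, mul_one]
  have h2 : ‖∑ y ∈ range Y, e β ^ y‖ * ‖e β - 1‖ ≤ 2 := by
    rw [← norm_mul, geom_sum_mul]
    refine (norm_sub_le _ _).trans ?_
    rw [norm_pow, norm_e, one_pow, norm_one]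
    norm_num
  have h3 := mul_le_mul_of_nonneg_left (GEO_low β) (norm_nonneg (∑ y ∈ range Y, e β ^ y))
  nlinarith

end H54W
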