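import Pool.Agent.H54W.Basic

set_option autoImplicit false

namespace H54W

open Finset

namespace L2x

lemma e_pow (x : ℝ) (n : ℕ) : e x ^ n = e (n * x) := by
  induction n with
  | zero => simp [e_zero]
  | succ n ih =>
    rw [pow_succ, ih, ← e_add]
    congr 1
    push_cast
    ring

lemma e_eq_one (x : ℝ) (h : e x = 1) : ∃ n : ℤ, x = n := by
  unfold e at h
  rw [Complex.exp_eq_one_iff] at h
  obtain ⟨n, hn⟩ := h
  refine ⟨n, ?_⟩
  have h2 : (2 * Real.pi * Complex.I : ℂ) ≠ 0 := Complex.two_pi_I_ne_zero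
  have h3 : (x : ℂ) = (n : ℂ) := by
    apply mul_left_cancel₀ h2
    rw [hn]
    ring
  exact_mod_cast h3

lemma orth0 (L : ℕ) (hL : 0 < L) (h : ℤ) (h0 : h ≠ 0) (hh : |h| < L) :
    ∑ j ∈ range L, e ((j : ℝ) / L * h) = 0 := by
  have hLR : (L : ℝ) ≠ 0 := by positivity
  set z : ℂ := e ((h : ℝ) / L) with hz
  have h1 : ∀ j ∈ range L, e ((j : ℝ) / L * h) = z ^ j := by
    intro j _
    rw [hz, e_pow]
    congr 1
    ring
  rw [Finset.sum_congr rfl h1]
  have h2 : z ^ L = 1 := by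
    rw [hz, e_pow]
    have : (L : ℝ) * ((h : ℝ) / L) = h := by field_simp
    rw [this, e_int]
  have h3 : z ≠ 1 := by
    intro h4
    obtain ⟨m, hm⟩ := e_eq_one _ h4
    rw [div_eq_iff hLR] at hm
    have h5 : h = m * L := by exact_mod_cast hm
    have hm0 : m ≠ 0 := by
      rintro rfl
      exact h0 (by rw [h5]; simp)
    have h6 : (1 : ℤ) ≤ |m| := Int.one_le_abs hm0
    rw [h5, abs_mul, Nat.abs_cast] at hh
    have hL' : (0 : ℤ) < L := by exact_mod_cast hL
    nlinarith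
  have h4 := geom_sum_mul z L
  rw [h2, sub_self] at h4
  rcases mul_eq_zero.1 h4 with h5 | h5
  · exact h5
  · exact absurd (sub_eq_zero.1 h5) h3

lemma orth1 (L : ℕ) : ∑ j ∈ range L, e ((j : ℝ) / L * ((0 : ℤ) : ℝ)) = L := by
  simp [e_zero]

lemma parseval (L : ℕ) (hL : 0 < L) (E : Finset ℤ)
    (hE : ∀ n ∈ E, ∀ m ∈ E, |n - m| < (L : ℤ)) :
    ∑ j ∈ range L, ‖∑ n ∈ E, e ((j : ℝ) / L * n)‖ ^ 2 = (L : ℝ) * E.card := by
  have h1 : ((∑ j ∈ range L, ‖∑ n ∈ E, e ((j : ℝ) / L * n)‖ ^ 2 : ℝ) : ℂ) =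
      ((L : ℝ) * E.card : ℝ) := by
    rw [Complex.ofReal_sum]
    have h2 : ∀ j ∈ range L, ((‖∑ n ∈ E, e ((j : ℝ) / L * n)‖ ^ 2 : ℝ) : ℂ) =
        ∑ n ∈ E, ∑ m ∈ E, e ((j : ℝ) / L * ((n - m : ℤ) : ℝ)) := by
      intro j _
      rw [Complex.ofReal_pow, ← Complex.mul_conj', map_sum, Finset.sum_mul_sum]
      refine Finset.sum_congr rfl fun n _ => Finset.sum_congr rfl fun m _ => ?_
      rw [← e_sub]
      congr 1
      push_cast
      ring
    rw [Finset.sum_congr rfl h2, Finset.sum_comm]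
    have h3 : ∀ n ∈ E, ∑ j ∈ range L, ∑ m ∈ E, e ((j : ℝ) / L * ((n - m : ℤ) : ℝ)) = (L : ℂ) := by
      intro n hn
      rw [Finset.sum_comm, Finset.sum_eq_single n]
      · rw [sub_self]
        exact orth1 L
      · intro m hm hmn
        exact orth0 L hL (n - m) (sub_ne_zero.2 (Ne.symm hmn)) (hE n hn m hm)
      · intro h
        exact absurd hn h
    rw [Finset.sum_congr rfl h3, Finset.sum_const, nsmul_eq_mul]
    push_cast
    ring
  exact_mod_cast h1

end L2x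

open L2x

theorem t_L2 : S_L2 := by
  intro P Y ε hε hP0 hP hK E F hEF
  have hmono : StrictMono P := strictMono_nat_of_lt_succ hP
  rcases E.eq_empty_or_nonempty with rfl | ⟨n0, hn0⟩
  · simp; positivity
  rcases F.eq_empty_or_nonempty with rfl | ⟨a0, ha0⟩
  · simp; positivity
  obtain ⟨L, hLdef⟩ : ∃ L, L = P Y := ⟨_, rfl⟩
  have hL : 0 < L := by
    have := hEF n0 hn0 a0 ha0
    omega
  have hLR : (0 : ℝ) < L := by exact_mod_cast hL
  have hEd : ∀ n ∈ E, ∀ m ∈ E, |n - m| < (L : ℤ) := by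
    intro n hn m hm
    have h1 := hEF n hn a0 ha0
    have h2 := hEF m hm a0 ha0
    rw [abs_lt]
    constructor <;> omega
  have hFd : ∀ n ∈ F, ∀ m ∈ F, |n - m| < (L : ℤ) := by
    intro n hn m hm
    have h1 := hEF n0 hn0 n hn
    have h2 := hEF n0 hn0 m hm
    rw [abs_lt]
    constructor <;> omega
  obtain ⟨K, hKdef⟩ : ∃ K : ℕ → ℂ, K = fun j : ℕ => (∑ y ∈ range Y, ((P (y + 1) : ℂ) - P y) *
    e ((j : ℝ) / L * P y)) - ∑ h ∈ range (P Y), e ((j : ℝ) / L * h) := ⟨_, rfl⟩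
  obtain ⟨A, hAdef⟩ : ∃ A : ℕ → ℂ, A = fun j : ℕ => ∑ n ∈ E, e ((j : ℝ) / L * n) := ⟨_, rfl⟩
  obtain ⟨B, hBdef⟩ : ∃ B : ℕ → ℂ, B = fun j : ℕ => ∑ n ∈ F, e ((j : ℝ) / L * n) := ⟨_, rfl⟩
  -- the sum for one pair
  have hpair : ∀ n ∈ E, ∀ a ∈ F, ∑ j ∈ range L, K j * e ((j : ℝ) / L * (a - n)) = -(L : ℂ) := by
    intro n hn a ha
    obtain ⟨h1, h2, h3⟩ := hEF n hn a ha
    have h4 : ∀ j ∈ range L, K j * e ((j : ℝ) / L * (a - n)) =
        (∑ y ∈ range Y, ((P (y + 1) : ℂ) - P y) * e ((j : ℝ) / L * ((P y + a - n : ℤ) : ℝ))) -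
          ∑ h ∈ range (P Y), e ((j : ℝ) / L * ((h + a - n : ℤ) : ℝ)) := by
      intro j _
      rw [hKdef]
      simp only
      rw [sub_mul, Finset.sum_mul, Finset.sum_mul]
      congr 1
      · refine Finset.sum_congr rfl fun y _ => ?_
        rw [mul_assoc, ← e_add]
        congr 2
        push_cast
        ring
      · refine Finset.sum_congr rfl fun y _ => ?_
        rw [← e_add]
        congr 1
        push_cast
        ring
    rw [Finset.sum_congr rfl h4, Finset.sum_sub_distrib]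
    have h5 : ∑ j ∈ range L, ∑ y ∈ range Y, ((P (y + 1) : ℂ) - P y) *
        e ((j : ℝ) / L * ((P y + a - n : ℤ) : ℝ)) = 0 := by
      rw [Finset.sum_comm]
      refine Finset.sum_eq_zero fun y hy => ?_
      rw [← Finset.mul_sum, orth0 L hL (P y + a - n), mul_zero]
      · intro h6
        exact h3 y (Finset.mem_range.1 hy) (by omega)
      · have h6 : P y < P Y := hmono (Finset.mem_range.1 hy)
        rw [abs_lt]
        constructor <;> omega
    have h7 : ∑ j ∈ range L, ∑ h ∈ range (P Y), e ((j : ℝ) / L * ((h + a - n : ℤ) : ℝ)) = L := by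
      rw [Finset.sum_comm, Finset.sum_eq_single (n - a).toNat]
      · have h8 : (((n - a).toNat : ℕ) : ℤ) + a - n = 0 := by omega
        rw [h8]
        exact orth1 L
      · intro h hh hne
        have h9 := Finset.mem_range.1 hh
        apply orth0 L hL (h + a - n)
        · intro h8
          exact hne (by omega)
        · rw [abs_lt]
          constructor <;> omega
      · intro h8
        exact absurd (Finset.mem_range.2 (by omega)) h8
    rw [h5, h7]
    ring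
  have hid : ∑ j ∈ range L, K j * ((starRingEnd ℂ) (A j) * B j) =
      -((L : ℂ) * E.card * F.card) := by
    have h1 : ∀ j ∈ range L, K j * ((starRingEnd ℂ) (A j) * B j) =
        ∑ n ∈ E, ∑ a ∈ F, K j * e ((j : ℝ) / L * (a - n)) := by
      intro j _
      rw [hAdef, hBdef]
      simp only
      rw [map_sum, Finset.sum_mul_sum, Finset.mul_sum]
      refine Finset.sum_congr rfl fun n _ => ?_
      rw [Finset.mul_sum]
      refine Finset.sum_congr rfl fun a _ => ?_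
      rw [← e_neg, ← e_add]
      congr 2
      ring
    rw [Finset.sum_congr rfl h1, Finset.sum_comm]
    have h2 : ∀ n ∈ E, ∑ j ∈ range L, ∑ a ∈ F, K j * e ((j : ℝ) / L * (a - n)) =
        F.card * -(L : ℂ) := by
      intro n hn
      rw [Finset.sum_comm, Finset.sum_congr rfl (hpair n hn), Finset.sum_const, nsmul_eq_mul]
    rw [Finset.sum_congr rfl h2, Finset.sum_const, nsmul_eq_mul]
    ring
  have hKle : ∀ j, ‖K j‖ ≤ ε * L := by
    intro j
    rw [hKdef, hLdef]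
    exact hK _
  have hnorm : (L : ℝ) * E.card * F.card ≤ ε * L * ∑ j ∈ range L, ‖A j‖ * ‖B j‖ := by
    have h1 : ‖∑ j ∈ range L, K j * ((starRingEnd ℂ) (A j) * B j)‖ =
        (L : ℝ) * E.card * F.card := by
      rw [hid, norm_neg, norm_mul, norm_mul]
      simp
    rw [← h1, Finset.mul_sum]
    refine (norm_sum_le _ _).trans (Finset.sum_le_sum fun j _ => ?_)
    rw [norm_mul, norm_mul, RCLike.norm_conj]
    exact mul_le_mul_of_nonneg_right (hKle j) (by positivity)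
  have hCS := Finset.sum_mul_sq_le_sq_mul_sq (range L) (fun j => ‖A j‖) (fun j => ‖B j‖)
  have hPA : ∑ j ∈ range L, ‖A j‖ ^ 2 = (L : ℝ) * E.card := by
    rw [hAdef]
    exact parseval L hL E hEd
  have hPB : ∑ j ∈ range L, ‖B j‖ ^ 2 = (L : ℝ) * F.card := by
    rw [hBdef]
    exact parseval L hL F hFd
  rw [hPA, hPB] at hCS
  have hE0 : (0 : ℝ) < E.card := by exact_mod_cast Finset.card_pos.2 ⟨n0, hn0⟩
  have hF0 : (0 : ℝ) < F.card := by exact_mod_cast Finset.card_pos.2 ⟨a0, ha0⟩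
  set x : ℝ := (E.card : ℝ) * F.card with hx
  have hx0 : 0 < x := by positivity
  set T : ℝ := ∑ j ∈ range L, ‖A j‖ * ‖B j‖ with hT
  have hT0 : 0 ≤ T := Finset.sum_nonneg fun j _ => by positivity
  have h1 : (L : ℝ) * x ≤ ε * L * T := by rw [hx, ← mul_assoc]; exact hnorm
  have h2 : x ≤ ε * T := by
    have : (L : ℝ) * x ≤ L * (ε * T) := by linarith
    exact le_of_mul_le_mul_left this hLR
  have h3 : T ^ 2 ≤ (L : ℝ) ^ 2 * x := by
    rw [hx]
    linarith
  have h4 : x ^ 2 ≤ ε ^ 2 * L ^ 2 * x := by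
    calc x ^ 2 ≤ (ε * T) ^ 2 := pow_le_pow_left₀ hx0.le h2 2
      _ = ε ^ 2 * T ^ 2 := by ring
      _ ≤ ε ^ 2 * ((L : ℝ) ^ 2 * x) := mul_le_mul_of_nonneg_left h3 (by positivity)
      _ = ε ^ 2 * L ^ 2 * x := by ring
  rw [← hLdef]
  have h5 : x * x ≤ (ε ^ 2 * L ^ 2) * x := by rw [← sq]; exact h4
  exact le_of_mul_le_mul_right h5 hx0

end H54W
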