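import Pool.Agent.H54W.Basic

set_option autoImplicit false

namespace H54W

open Finset

namespace SUPaux

lemma QQ_pos (K : ℕ) : 1 ≤ QQ K := by
  unfold QQ
  have : 0 < ∏ p ∈ (range (K + 1)).filter (fun p => p.Prime ∧ p ≠ 2), p := by
    apply Finset.prod_pos
    intro p hp
    exact (Finset.mem_filter.1 hp).2.1.pos
  omega

lemma QQ_dvd (K p : ℕ) (hp : p.Prime) (hpK : p ≤ K) : p ∣ QQ K := by
  unfold QQ
  by_cases h2 : p = 2
  · subst h2
    exact Dvd.dvd.mul_right (by norm_num) _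
  · apply Dvd.dvd.mul_left
    exact Finset.dvd_prod_of_mem (fun p => p)
      (Finset.mem_filter.2 ⟨Finset.mem_range.2 (by omega), hp, h2⟩)

lemma nd_sub_round (θ : ℝ) : nd (θ - round θ) = |θ - round θ| := by
  unfold nd
  rw [round_sub_intCast]; simp

lemma e_mul_nat (θ : ℝ) (h : ℕ) : e (θ * h) = e ((θ - round θ) * h) := by
  have : θ * h = (θ - round θ) * h + ((round θ * (h : ℤ) : ℤ) : ℝ) := by push_cast; ring
  rw [this, e_add_int]

lemma key (k : ℕ) (hk : 2 ≤ k) (δ : ℝ) (hδ : 0 < δ) (Q ρ : ℕ) (hQ : 1 ≤ Q)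
    (P : ℕ → ℕ) (hP0 : P 0 = 0) (h1 : ∀ y, P y < P (y + 1))
    (h2 : ∀ y, P (y + 1) - P y ≤ P (y + 2) - P (y + 1))
    (hid : ∀ y : ℕ, ((ρ : ℝ) + Q * y) ^ k = (ρ : ℝ) ^ k + Q * k * P y)
    (C : ℝ) (Ya : ℕ) (hC : 0 < C)
    (hana : ∀ Y : ℕ, Ya ≤ Y → ∀ α : ℝ,
      ‖∑ y ∈ range Y, e (α * ((ρ : ℝ) + (Q : ℝ) * y) ^ k)‖ ≤ (δ / (16 * k)) * Y ∨
      ∃ a : ℤ, |α - (a : ℝ) / ((Q : ℝ) * k)| ≤ C / (Y : ℝ) ^ k)
    (hGEO : S_GEO) (hCMP : S_CMP)
    (Y : ℕ) (hY1 : 1 ≤ Y)
    (hs1 : ((P (Y + 1) : ℝ) - P Y) * Y ≤ 4 * k * P Y)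
    (hs3 : (P Y : ℝ) ≤ 2 * (Q : ℝ) ^ k * (Y : ℝ) ^ k)
    (hYa : (Ya : ℝ) ≤ δ / (16 * k) * Y)
    (hYb : 8 * Real.pi * k ≤ δ ^ 2 * Y)
    (hYc : 2 * ((Q : ℝ) * k * C) + 1 ≤ δ / (16 * k) * Y)
    (hYd : 16 * Real.pi * (k : ℝ) ^ 2 * (Q : ℝ) ^ (k + 1) * C ≤ δ * (δ / (16 * k)) ^ k * Y)
    (θ : ℝ) (hnd : nd θ = |θ|) :
    ‖(∑ y ∈ range Y, ((P (y + 1) : ℂ) - P y) * e (θ * P y)) - ∑ h ∈ range (P Y), e (θ * h)‖
      ≤ δ * P Y := by
  have hk0 : (0 : ℝ) < k := by exact_mod_cast (by omega : 0 < k)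
  set e1 : ℝ := δ / (16 * k) with he1
  have he1p : 0 < e1 := by positivity
  have hY0 : (0 : ℝ) < Y := by exact_mod_cast hY1
  have hQ0 : (0 : ℝ) < Q := by exact_mod_cast hQ
  have hPY : (0 : ℝ) ≤ P Y := Nat.cast_nonneg _
  have hpi := Real.pi_pos
  set w : ℝ := (P (Y + 1) : ℝ) - P Y with hw
  have hw0 : 0 < w := by
    have h3 : (P Y : ℝ) < P (Y + 1) := by exact_mod_cast h1 Y
    rw [hw]; linarith
  have hθ : |θ| ≤ 1 / 2 := by rw [← hnd]; exact nd_le_half θ
  by_cases hc : 2 * Real.pi * |θ| * w ≤ δ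
  · have := (hCMP P Y θ w 0 hP0 h1 h2 le_rfl).1
    refine this.trans ?_
    exact mul_le_mul_of_nonneg_right hc hPY
  · push Not at hc
    have hB := (hCMP P Y θ w (e1 * Y) hP0 h1 h2 le_rfl).2 ?_
    · set S : ℝ := ‖∑ h ∈ range (P Y), e (θ * h)‖ with hS
      have hS0 : 0 ≤ S := norm_nonneg _
      have hg := hGEO θ 0 (P Y)
      simp only [add_zero] at hg
      rw [hnd] at hg
      have hS1 : S * δ ≤ Real.pi * w := by
        calc S * δ ≤ S * (2 * Real.pi * |θ| * w) := mul_le_mul_of_nonneg_left hc.le hS0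
          _ = (S * |θ|) * (2 * Real.pi * w) := by ring
          _ ≤ (1 / 2) * (2 * Real.pi * w) := mul_le_mul_of_nonneg_right hg (by positivity)
          _ = _ := by ring
      have hS2 : S ≤ δ / 2 * P Y := by
        have h3 : S * (δ * Y) ≤ (δ / 2 * P Y) * (δ * Y) := by
          calc S * (δ * Y) = (S * δ) * Y := by ring
            _ ≤ (Real.pi * w) * Y := mul_le_mul_of_nonneg_right hS1 hY0.le
            _ = Real.pi * (w * Y) := by ring
            _ ≤ Real.pi * (4 * k * P Y) := mul_le_mul_of_nonneg_left hs1 Real.pi_pos.le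
            _ = (8 * Real.pi * k) * (P Y / 2) := by ring
            _ ≤ (δ ^ 2 * Y) * (P Y / 2) := mul_le_mul_of_nonneg_right hYb (by positivity)
            _ = _ := by ring
        exact le_of_mul_le_mul_right h3 (by positivity)
      have hB2 : 2 * w * (e1 * Y) ≤ δ / 2 * P Y := by
        calc 2 * w * (e1 * Y) = 2 * e1 * (w * Y) := by ring
          _ ≤ 2 * e1 * (4 * k * P Y) := mul_le_mul_of_nonneg_left hs1 (by positivity)
          _ = δ / 2 * P Y := by rw [he1]; field_simp; ring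
      calc _ ≤ ‖∑ y ∈ range Y, ((P (y + 1) : ℂ) - P y) * e (θ * P y)‖ + S := norm_sub_le _ _
        _ ≤ δ * P Y := by linarith
    · intro Y' hY'
      have hY'r : (Y' : ℝ) ≤ Y := by exact_mod_cast hY'
      by_cases hsm : (Y' : ℝ) ≤ e1 * Y
      · refine (norm_sum_le _ _).trans ?_
        simp only [norm_e, sum_const, card_range, nsmul_eq_mul, mul_one]
        exact hsm
      · push Not at hsm
        have hYaY' : Ya ≤ Y' := by
          have : (Ya : ℝ) ≤ Y' := hYa.trans hsm.le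
          exact_mod_cast this
        have hQk : (0 : ℝ) < (Q : ℝ) * k := by positivity
        rcases hana Y' hYaY' (θ / ((Q : ℝ) * k)) with h | ⟨a, ha⟩
        · have heq : ∑ y ∈ range Y', e (θ / ((Q : ℝ) * k) * ((ρ : ℝ) + (Q : ℝ) * y) ^ k) =
              e (θ / ((Q : ℝ) * k) * (ρ : ℝ) ^ k) * ∑ y ∈ range Y', e (θ * P y) := by
            rw [Finset.mul_sum]
            refine Finset.sum_congr rfl (fun y _ => ?_)
            rw [← e_add, hid y]
            congr 1
            field_simp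
          rw [heq, norm_mul, norm_e, one_mul] at h
          refine h.trans ?_
          exact mul_le_mul_of_nonneg_left hY'r he1p.le
        · exfalso
          have h4 : |θ - a| ≤ Q * k * C / (Y' : ℝ) ^ k := by
            have h5 : θ / ((Q : ℝ) * k) - (a : ℝ) / ((Q : ℝ) * k) = (θ - a) / ((Q : ℝ) * k) := by
              ring
            rw [h5, abs_div, abs_of_pos hQk, div_le_iff₀ hQk] at ha
            refine ha.trans (le_of_eq ?_)
            ring
          have he1Y : 0 < e1 * Y := by positivity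
          have hpow : (e1 * Y) ^ k ≤ (Y' : ℝ) ^ k := pow_le_pow_left₀ he1Y.le hsm.le k
          have h6 : |θ - a| ≤ Q * k * C / (e1 * Y) ^ k := by
            refine h4.trans ?_
            exact div_le_div_of_nonneg_left (by positivity) (by positivity) hpow
          have h1le : 1 ≤ e1 * Y := by
            have : (0 : ℝ) ≤ 2 * ((Q : ℝ) * k * C) := by positivity
            linarith
          have h7 : Q * k * C / (e1 * Y) ^ k < 1 / 2 := by
            have h8 : e1 * Y ≤ (e1 * Y) ^ k := le_self_pow₀ h1le (by omega)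
            rw [div_lt_iff₀ (by positivity)]
            linarith
          have ha0 : a = 0 := by
            by_contra hne
            have h9 : (1 : ℝ) ≤ |(a : ℝ)| := by
              have := Int.one_le_abs hne
              exact_mod_cast this
            have h10 : |(a : ℝ)| ≤ |θ| + |θ - a| := by
              have := abs_sub_abs_le_abs_sub (a : ℝ) θ
              rw [abs_sub_comm] at this
              linarith
            linarith
          subst ha0
          simp only [Int.cast_zero, sub_zero] at h6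
          have h11 : |θ| * (e1 * Y) ^ k ≤ Q * k * C := (le_div_iff₀ (by positivity)).1 h6
          have h12 : w * Y ≤ 8 * k * (Q : ℝ) ^ k * (Y : ℝ) ^ k := by
            refine hs1.trans ?_
            calc 4 * (k : ℝ) * P Y ≤ 4 * k * (2 * (Q : ℝ) ^ k * (Y : ℝ) ^ k) :=
                  mul_le_mul_of_nonneg_left hs3 (by positivity)
              _ = _ := by ring
          have h13 : δ * Y * (e1 * Y) ^ k <
              16 * Real.pi * (k : ℝ) ^ 2 * (Q : ℝ) ^ (k + 1) * C * (Y : ℝ) ^ k := by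
            calc δ * Y * (e1 * Y) ^ k < (2 * Real.pi * |θ| * w) * Y * (e1 * Y) ^ k := by
                  apply mul_lt_mul_of_pos_right _ (by positivity)
                  exact mul_lt_mul_of_pos_right hc hY0
              _ = 2 * Real.pi * (|θ| * (e1 * Y) ^ k) * (w * Y) := by ring
              _ ≤ 2 * Real.pi * (Q * k * C) * (8 * k * (Q : ℝ) ^ k * (Y : ℝ) ^ k) := by
                  apply mul_le_mul _ h12 (by positivity) (by positivity)
                  exact mul_le_mul_of_nonneg_left h11 (by positivity)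
              _ = _ := by ring
          have h14 : δ * Y * (e1 * Y) ^ k = (δ * e1 ^ k * Y) * (Y : ℝ) ^ k := by
            rw [mul_pow]; ring
          rw [h14] at h13
          have h15 := lt_of_mul_lt_mul_right h13 (by positivity)
          linarith

end SUPaux

open SUPaux in
theorem t_SUP : S_GEO → S_ANA → S_DIV → S_SIZE → S_CMP → S_SUP := by
  intro hGEO hANA hDIV hSIZE hCMP k hk ε hε
  have hδ : 0 < min ε 1 := lt_min hε one_pos
  obtain ⟨δ, hδe⟩ : ∃ δ : ℝ, δ = min ε 1 := ⟨_, rfl⟩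
  rw [← hδe] at hδ
  have hδε : δ ≤ ε := by rw [hδe]; exact min_le_left _ _
  have hk0 : (0 : ℝ) < k := by exact_mod_cast (by omega : 0 < k)
  have he1 : 0 < δ / (16 * k) := by positivity
  obtain ⟨K, hkK, hK⟩ := hANA k hk (δ / (16 * k)) he1
  refine ⟨K, hkK, fun ρ hρ => ?_⟩
  obtain ⟨C, Ya, hC, hana⟩ := hK ρ hρ
  have hQ := QQ_pos K
  have hdiv := hDIV k (QQ K) (by omega) (fun p hp hpk => QQ_dvd K p hp (hpk.trans hkK)) ρ
  obtain ⟨h1, h2, Ys, hs⟩ := hSIZE k (QQ K) ρ hk hQ hdiv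
  obtain ⟨N1, hN1⟩ := exists_nat_ge ((Ya : ℝ) / (δ / (16 * k)))
  obtain ⟨N2, hN2⟩ := exists_nat_ge (8 * Real.pi * k / δ ^ 2)
  obtain ⟨N3, hN3⟩ := exists_nat_ge ((2 * ((QQ K : ℝ) * k * C) + 1) / (δ / (16 * k)))
  obtain ⟨N4, hN4⟩ := exists_nat_ge
    ((16 * Real.pi * (k : ℝ) ^ 2 * (QQ K : ℝ) ^ (k + 1) * C) / (δ * (δ / (16 * k)) ^ k))
  refine ⟨Ys + N1 + N2 + N3 + N4 + 1, fun Y hY θ => ?_⟩
  obtain ⟨hs1, _, hs3⟩ := hs Y (by omega)
  have hid : ∀ y : ℕ, ((ρ : ℝ) + (QQ K : ℝ) * y) ^ k = (ρ : ℝ) ^ k + (QQ K : ℝ) * k *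
      (PP k (QQ K) ρ y : ℝ) := by
    intro y
    have h3 : QQ K * k * PP k (QQ K) ρ y = (ρ + QQ K * y) ^ k - ρ ^ k := by
      unfold PP
      exact Nat.mul_div_cancel' (hdiv y)
    have h4 : ρ ^ k ≤ (ρ + QQ K * y) ^ k := Nat.pow_le_pow_left (by omega) k
    have h5 : (ρ + QQ K * y) ^ k = ρ ^ k + QQ K * k * PP k (QQ K) ρ y := by omega
    exact_mod_cast h5
  have hYN : ∀ N : ℕ, N ≤ Y → (N : ℝ) ≤ Y := fun N h => by exact_mod_cast h
  have hPP0 : PP k (QQ K) ρ 0 = 0 := by simp [PP]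
  have hmain := key k hk δ hδ (QQ K) ρ hQ (PP k (QQ K) ρ) hPP0 h1 h2 hid C Ya hC hana hGEO hCMP
    Y (by omega) hs1 hs3
    (by
      have := hN1.trans (hYN N1 (by omega))
      rw [div_le_iff₀ he1] at this
      linarith)
    (by
      have := hN2.trans (hYN N2 (by omega))
      rw [div_le_iff₀ (by positivity)] at this
      linarith)
    (by
      have := hN3.trans (hYN N3 (by omega))
      rw [div_le_iff₀ he1] at this
      linarith)
    (by
      have := hN4.trans (hYN N4 (by omega))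
      rw [div_le_iff₀ (by positivity)] at this
      linarith)
    (θ - round θ) (nd_sub_round θ)
  have hr1 : ∑ y ∈ range Y, ((PP k (QQ K) ρ (y + 1) : ℂ) - PP k (QQ K) ρ y) *
      e (θ * PP k (QQ K) ρ y) = ∑ y ∈ range Y, ((PP k (QQ K) ρ (y + 1) : ℂ) - PP k (QQ K) ρ y) *
      e ((θ - round θ) * PP k (QQ K) ρ y) :=
    Finset.sum_congr rfl fun y _ => by rw [e_mul_nat]
  have hr2 : ∑ h ∈ range (PP k (QQ K) ρ Y), e (θ * h) =
      ∑ h ∈ range (PP k (QQ K) ρ Y), e ((θ - round θ) * h) :=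
    Finset.sum_congr rfl fun h _ => e_mul_nat θ h
  rw [hr1, hr2]
  refine hmain.trans ?_
  exact mul_le_mul_of_nonneg_right hδε (Nat.cast_nonneg _)

end H54W
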